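import Pool.Agent.TH152.HY.QDefs
import Pool.Agent.W603.LV.Ex
import Pool.Agent.W602.GT.SpDefs

/-!
Closed subsets of `P^N × P^n` whose projection to `P^n` is divisibly ramified over the coordinate
hyperplanes: definitions.
-/

set_option autoImplicit false

namespace Run7.h34.DR

open MvPolynomial
open Pool.Agent.W602.Cov Pool.Agent.W602.Cov.R Pool.Agent.W602.GT Pool.Agent.TH152.HY

variable {N n : ℕ} {ι : Type}

/-- The projection from `X` to `P^n` is divisibly ramified of order `m` over the coordinate
hyperplanes: for every point `(a, b)` of `X` over a field `L` with a discrete valuation `P` (every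
germ of a curve in `X`) the contact order with each coordinate hyperplane which does not contain
the point is divisible by `m` (so it is zero or at least `m`). -/
def Divisible (X : BiSet N n) (m : ℕ) : Prop :=
  ∀ (L : Type) [Field L] [Algebra ℂ L] (a : Fin (N + 1) → L) (b : Fin (n + 1) → L), X.Mem a b →
    ∀ (P : FF.Place ℂ L) (c : ℤ), Norm P b c → ∀ i, b i ≠ 0 → (m : ℤ) ∣ P.ord (b i) - c

/-- The preimages in `X` of the closed subsets of dimension at most one of `P^n` have dimension at
most one: if the ratios of the coordinates `b` generate a field of transcendence degree at most one,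
then this is true for the ratios of the coordinates `a` and `b`. For example, `X` has finite fibres
over `P^n`, or `X` is an irreducible surface and the projection is generically finite. -/
def LowFibres (X : BiSet N n) : Prop :=
  ∀ (L : Type) [Field L] [Algebra ℂ L] (a : Fin (N + 1) → L) (b : Fin (n + 1) → L), X.Mem a b →
    Algebra.trdeg ℂ (coords ℂ b) ≤ 1 →
      Algebra.trdeg ℂ (coords ℂ a ⊔ coords ℂ b : IntermediateField ℂ L) ≤ 1

/-- `E` is the function field of an elliptic curve, given by a Weierstrass equation. -/
def IsElliptic (E : Type) [Field E] [Algebra ℂ E] : Prop :=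
  ∃ (a b : ℂ) (x y : E), 4 * a ^ 3 + 27 * b ^ 2 ≠ 0 ∧
    y ^ 2 = x ^ 3 + algebraMap ℂ E a * x + algebraMap ℂ E b ∧ IntermediateField.adjoin ℂ {x, y} = ⊤

/-- The point `(a, b)` over a field is not constant: some ratio of its coordinates is
transcendental. -/
def Nonconstant {L : Type} [Field L] [Algebra ℂ L] (a : Fin (N + 1) → L) (b : Fin (n + 1) → L) :
    Prop :=
  (∃ i j, a j ≠ 0 ∧ Transcendental ℂ (a i / a j)) ∨ ∃ i j, b j ≠ 0 ∧ Transcendental ℂ (b i / b j)

/-- `(a, b)` is a nonconstant morphism to `X` from the elliptic curve with the function field `E`. -/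
structure FromElliptic (X : BiSet N n) (E : Type) [Field E] [Algebra ℂ E]
    (a : Fin (N + 1) → E) (b : Fin (n + 1) → E) : Prop where
  ff : FF.IsFF ℂ E
  elliptic : IsElliptic E
  mem : X.Mem a b
  nonconst : Nonconstant a b

/-- All morphisms from elliptic curves to `X` are constant. -/
def NoElliptic (X : BiSet N n) : Prop :=
  ∀ (E : Type) [Field E] [Algebra ℂ E] (a : Fin (N + 1) → E) (b : Fin (n + 1) → E),
    ¬ FromElliptic X E a b

end Run7.h34.DR
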