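import Pool.Agent.TH152.HY.QMain
import Pool.Agent.N459.JS.Weier
import Pool.Agent.H159R3.Toric.Analytic
import Pool.Agent.Run7.h34.DR.Defs

/-!
The coordinates of the entire curves in `X` are `m`-th powers.
-/

set_option autoImplicit false

namespace Run7.h34.DR

open MvPolynomial Filter Topology
open Pool.Agent.W602.Cov Pool.Agent.W602.Cov.Cover Pool.Agent.W602.Cov.R Pool.Agent.W603.BP
open Pool.Agent.W601.PH Pool.Agent.W602.Cov.G Pool.Agent.W602.GT Pool.Agent.TH152.HY

variable {N n : ℕ} {ι : Type}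

/-- the multiplicities of entire curves -/
theorem ord_dvd {X : BiSet N n} {m : ℕ} (hX : Divisible X m) {u : ℂ → Fin (N + 1) → ℂ}
    {v : ℂ → Fin (n + 1) → ℂ} (hu : ∀ j, Differentiable ℂ fun z => u z j)
    (hv : ∀ j, Differentiable ℂ fun z => v z j) (hmem : ∀ z, X.Mem (u z) (v z)) (z0 : ℂ)
    (i : Fin (n + 1)) (hi : ∃ z, v z i ≠ 0) :
    m ∣ (analyticOrderAt (fun z => v z i) z0).toNat := by
  have hopen : IsOpen (Set.univ : Set ℂ) := isOpen_univ
  have huA : ∀ j, AnalyticOnNhd ℂ (fun z => u z j) Set.univ := fun j z _ => (hu j).analyticAt z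
  have hvA : ∀ j, AnalyticOnNhd ℂ (fun z => v z j) Set.univ := fun j z _ => (hv j).analyticAt z
  have hz0 : z0 ∈ (Set.univ : Set ℂ) := Set.mem_univ _
  obtain ⟨L, _, _, P, T, hT, hord⟩ := point_place hopen isPreconnected_univ hz0
  have hTne : ∀ f : Aly Set.univ, f ≠ 0 → T f ≠ 0 := by
    intro f hf h0
    apply hf
    apply hT
    rw [h0, map_zero]
  let U : Fin (N + 1) → Aly Set.univ := fun j => mk (fun z => u z j) (huA j)
  let W : Fin (n + 1) → Aly Set.univ := fun j => mk (fun z => v z j) (hvA j)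
  have hext : ∀ f g : Aly Set.univ, (∀ z : (Set.univ : Set ℂ), evs z f = evs z g) → f = g :=
    fun f g h => Subtype.ext (funext h)
  have hrep : ∀ (f : ℂ → ℂ) (hf : AnalyticOnNhd ℂ f Set.univ),
      analyticOrderAt (rep Set.univ (mk f hf)) z0 = analyticOrderAt f z0 := by
    intro f hf
    refine analyticOrderAt_congr ?_
    filter_upwards [hopen.mem_nhds hz0] with z hz
    exact rep_mk f hf z hz
  have hpoly : ∀ G : BiPoly N n, ∀ z : (Set.univ : Set ℂ),
      evs z (aeval (Sum.elim U W) G) = eval (Sum.elim (u z) (v z)) G := by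
    intro G z
    have h7 : evs z (aeval (Sum.elim U W) G) = aeval (fun s => evs z (Sum.elim U W s)) G := by
      rw [← AlgHom.comp_apply, comp_aeval]
    rw [h7]
    have h8 : (fun s => evs z (Sum.elim U W s)) = Sum.elim (u z) (v z) := by
      funext s
      rcases s with s | s <;> rfl
    rw [h8]
    rfl
  have hTpoly : ∀ G : BiPoly N n, aeval (Sum.elim (fun j => T (U j)) (fun j => T (W j))) G
      = T (aeval (Sum.elim U W) G) := by
    intro G
    rw [← AlgHom.comp_apply, comp_aeval]
    congr 2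
    funext s
    rcases s with s | s <;> rfl
  have hmem' : X.Mem (fun j => T (U j)) (fun j => T (W j)) := by
    obtain ⟨ha, hb, _⟩ := hmem z0
    refine ⟨?_, ?_, ?_⟩
    · intro h0
      apply ha
      funext j
      by_contra hj
      exact hTne (U j) (mk_ne (huA j) hz0 hj) (congrFun h0 j)
    · intro h0
      apply hb
      funext j
      by_contra hj
      exact hTne (W j) (mk_ne (hvA j) hz0 hj) (congrFun h0 j)
    · intro G hG
      have h5 : aeval (Sum.elim U W) G = (0 : Aly Set.univ) := by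
        apply hext
        intro z
        rw [map_zero, hpoly]
        exact (hmem z).2.2 G hG
      rw [hTpoly, h5, map_zero]
  have hNb : Norm P (fun j => T (W j)) 0 := by
    refine ⟨fun j hj => ?_, ?_⟩
    · have h1 : W j ≠ 0 := fun h1 => hj (by
        show T (W j) = 0
        rw [h1, map_zero])
      show 0 ≤ P.ord (T (W j))
      rw [(hord _ h1).2]
      exact Int.natCast_nonneg _
    · obtain ⟨j, hj⟩ := Function.ne_iff.mp (hmem z0).2.1
      have h1 : W j ≠ 0 := mk_ne (hvA j) hz0 hj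
      refine ⟨j, hTne _ h1, ?_⟩
      show P.ord (T (W j)) = 0
      rw [(hord _ h1).2, hrep _ (hvA j), (hvA j z0 hz0).analyticOrderAt_eq_zero.mpr hj]
      rfl
  obtain ⟨z1, hz1⟩ := hi
  have hWi : W i ≠ 0 := mk_ne (hvA i) (Set.mem_univ z1) hz1
  have h1 := hX L (fun j => T (U j)) (fun j => T (W j)) hmem' P 0 hNb i (hTne _ hWi)
  rw [sub_zero, (hord _ hWi).2, hrep _ (hvA i)] at h1
  exact_mod_cast h1

/-- An entire function whose zeros have multiplicities divisible by `m` is an `m`-th power. -/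
theorem exists_root {f : ℂ → ℂ} (hf : Differentiable ℂ f) (hne : ∃ z, f z ≠ 0) {m : ℕ} (hm : 0 < m)
    (hdvd : ∀ z, m ∣ (analyticOrderAt f z).toNat) :
    ∃ h : ℂ → ℂ, Differentiable ℂ h ∧ ∀ z, h z ^ m = f z := by
  have hfA : ∀ z, AnalyticAt ℂ f z := fun z => hf.analyticAt z
  have htop : ∀ z, analyticOrderAt f z ≠ ⊤ := by
    intro z h0
    rw [analyticOrderAt_eq_top] at h0
    obtain ⟨w, hw⟩ := hne
    have hAn : AnalyticOnNhd ℂ f Set.univ := fun z _ => hfA z
    exact hw (hAn.eqOn_zero_of_preconnected_of_eventuallyEq_zero isPreconnected_univ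
      (Set.mem_univ z) h0 (Set.mem_univ w))
  obtain ⟨q, hq, hqv⟩ := Pool.Agent.N459.JS.weier hf hne
    (fun z => (analyticOrderAt f z).toNat / m) (fun z hz => by
      rw [(hfA z).analyticOrderAt_eq_zero.2 hz]
      simp)
  have hqA : ∀ z, AnalyticAt ℂ q z := fun z => hq.analyticAt z
  have hqord : ∀ z, analyticOrderAt (fun z => q z ^ m) z = analyticOrderAt f z := by
    intro z
    obtain ⟨v, hv, hv0, hvq⟩ := hqv z
    have h1 : analyticOrderAt q z = (((analyticOrderAt f z).toNat / m : ℕ) : ℕ∞) := by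
      rw [(hqA z).analyticOrderAt_eq_natCast]
      exact ⟨v, hv.analyticAt z, hv0, Eventually.of_forall fun w => by
        rw [hvq w, smul_eq_mul]⟩
    have h2 : analyticOrderAt (fun z => q z ^ m) z = m • analyticOrderAt q z :=
      analyticOrderAt_pow (hqA z) m
    rw [h2, h1, nsmul_eq_mul]
    have h3 : ((analyticOrderAt f z).toNat : ℕ∞) = analyticOrderAt f z := ENat.natCast_toNat (htop z)
    rw [← h3]
    have h4 : m * ((analyticOrderAt f z).toNat / m) = (analyticOrderAt f z).toNat :=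
      Nat.mul_div_cancel' (hdvd z)
    exact_mod_cast congrArg (Nat.cast : ℕ → ℕ∞) h4
  -- removal of the common zeros of `f` and `q ^ m`
  obtain ⟨Q, g', hQ, hg', hfac, hcz⟩ := Pool.Agent.N459.JS.remove (M := 1)
    ![f, fun z => q z ^ m] (fun i => by
      fin_cases i
      · exact hf
      · exact hq.pow m) (by
      obtain ⟨w, hw⟩ := hne
      exact ⟨0, w, hw⟩)
  have hf1 : ∀ z, f z = Q z * g' 0 z := fun z => hfac 0 z
  have hq1 : ∀ z, q z ^ m = Q z * g' 1 z := fun z => hfac 1 z
  have hordeq : ∀ z, analyticOrderAt (g' 0) z = analyticOrderAt (g' 1) z := by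
    intro z
    have hQA := hQ.analyticAt z
    have e1 : analyticOrderAt f z = analyticOrderAt Q z + analyticOrderAt (g' 0) z := by
      rw [← analyticOrderAt_mul hQA ((hg' 0).analyticAt z)]
      congr 1
      funext w
      exact hf1 w
    have e2 : analyticOrderAt f z = analyticOrderAt Q z + analyticOrderAt (g' 1) z := by
      rw [← hqord z, ← analyticOrderAt_mul hQA ((hg' 1).analyticAt z)]
      congr 1
      funext w
      exact hq1 w
    have hQt : analyticOrderAt Q z ≠ ⊤ := by
      intro h0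
      rw [h0, top_add] at e1
      exact htop z e1
    have e3 := e1.symm.trans e2
    exact ENat.add_right_injective_of_ne_top hQt e3
  have hn : ∀ z, g' 0 z ≠ 0 ∧ g' 1 z ≠ 0 := by
    intro z
    have h1 : ∀ i, g' i z = 0 ↔ analyticOrderAt (g' i) z ≠ 0 := fun i => by
      rw [Ne, ((hg' i).analyticAt z).analyticOrderAt_eq_zero, not_not]
    by_cases h0 : g' 0 z = 0
    · have h2 := (h1 0).1 h0
      rw [hordeq z] at h2
      have h3 := (h1 1).2 h2
      obtain ⟨i, hi⟩ := hcz z
      fin_cases i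
      · exact absurd h0 hi
      · exact absurd h3 hi
    · refine ⟨h0, fun h3 => h0 ?_⟩
      have h2 := (h1 1).1 h3
      rw [← hordeq z] at h2
      exact (h1 0).2 h2
  obtain ⟨r1, hr1, hr1m⟩ := Pool.Agent.H159R3.Toric.root (g' 0) (hg' 0) (fun z => (hn z).1) hm
  obtain ⟨r2, hr2, hr2m⟩ := Pool.Agent.H159R3.Toric.root (g' 1) (hg' 1) (fun z => (hn z).2) hm
  have hr2n : ∀ z, r2 z ≠ 0 := by
    intro z h0
    have := hr2m z
    rw [h0, zero_pow hm.ne'] at this
    exact (hn z).2 this.symm
  refine ⟨fun z => q z * r1 z / r2 z, (hq.mul hr1).div hr2 hr2n, fun z => ?_⟩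
  rw [div_pow, mul_pow, hq1, hr1m, hr2m, hf1]
  field_simp [(hn z).2]

end Run7.h34.DR
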