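import Pool.Agent.TH152.HY.Fib
import Pool.Agent.W602.GT.Dich
import Pool.Agent.W601.PH.Quasi
import Pool.Agent.Y221.AP.Main
import Pool.Agent.Run7.h34.DR.Ord

/-!
Entire curves as points over the field of the functions which are meromorphic near infinity.
-/

set_option autoImplicit false
set_option linter.unusedSectionVars false

namespace Run7.h34.DR

open FF MvPolynomial Filter Metric Topology IntermediateField
open Pool.Agent.W602.GT Pool.Agent.W603.BP
open Pool.Agent.TH152.HY (null)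
open Pool.Agent.Y221.AP
open Pool.Agent.H159R3.NV (Ent)
open Pool.Agent.W601.PH (sin_not)

variable {N n : ℕ} {ι : Type}

/-! ### Entire functions and the sine -/

theorem sin_an {g : ℂ → ℂ} (hg : Differentiable ℂ g) (z : ℂ) :
    AnalyticAt ℂ (fun z => g (Complex.sin z)) z :=
  (hg.comp Complex.differentiable_sin).analyticAt z

theorem sin_mero {g : ℂ → ℂ} (hg : Differentiable ℂ g) :
    MeromorphicOn (fun z => g (Complex.sin z)) Om := fun z _ => (sin_an hg z).meromorphicAt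

/-- `g ↦ g ∘ sin` -/
noncomputable def sinHom : Ent →ₐ[ℂ] MerS where
  toFun g := ⟨fun z => (g : ℂ → ℂ) (Complex.sin z), sin_mero g.2⟩
  map_one' := rfl
  map_mul' _ _ := rfl
  map_zero' := rfl
  map_add' _ _ := rfl
  commutes' _ := rfl

/-- `g ↦ g ∘ sin` as a function meromorphic near infinity -/
noncomputable def Th : Ent →ₐ[ℂ] MK := (Ideal.Quotient.mkₐ ℂ MJ).comp sinHom

theorem Th_apply (g : Ent) : Th g = cl (fun z => (g : ℂ → ℂ) (Complex.sin z)) (sin_mero g.2) := rfl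

theorem Th_zero {g : Ent} (h : Th g = 0) : g = 0 := by
  rw [Th_apply, cl_eq_zero] at h
  apply Subtype.ext
  funext w
  obtain ⟨x, hx, hxw⟩ := Pool.Agent.W603.BP.sin_point w
  have hx' : x⁻¹ ∈ Om := by
    have h1 : x ∈ PB 1 := Pool.Agent.W603.BP.mem_disc.1 hx
    have := inv_mem_Ext h1
    rwa [inv_one] at this
  have h2 := eq_of_cod (g := fun _ => 0) h hx' (sin_an g.2 _).continuousAt continuousAt_const
  rw [hxw] at h2
  exact h2

theorem Th_ne {g : ℂ → ℂ} (hg : Differentiable ℂ g) (h : ∃ z, g z ≠ 0) : Th ⟨g, hg⟩ ≠ 0 := by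
  intro h0
  obtain ⟨z, hz⟩ := h
  exact hz (congrFun (congrArg Subtype.val (Th_zero h0)) z)

theorem minf_reg {x : MK} (h : MInf x) : ∀ᶠ w in 𝓝[≠] (0 : ℂ), Reg x w⁻¹ := by
  filter_upwards [MeromorphicAt.eventually_analyticAt h, self_mem_nhdsWithin] with w hw hw0
  have hw0' : w ≠ 0 := hw0
  have h1 : AnalyticAt ℂ (fun z : ℂ => z⁻¹) w⁻¹ := analyticAt_inv (inv_ne_zero hw0')
  have h2 : AnalyticAt ℂ (fun w => Fn x w⁻¹) ((fun z : ℂ => z⁻¹) w⁻¹) := by
    simp only [inv_inv]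
    exact hw
  have h3 := h2.comp h1
  have h4 : ((fun w => Fn x w⁻¹) ∘ fun z : ℂ => z⁻¹) = Fn x := by
    funext z
    simp
  rw [h4] at h3
  exact h3

/-- a nonconstant entire curve has an essential singularity -/
theorem ess {k : ℕ} {g : ℂ → Fin (k + 1) → ℂ} (hg : ∀ j, Differentiable ℂ fun z => g z j)
    (hne : ∀ z, g z ≠ 0) (hnc : ∃ z w, ∀ c : ℂ, g z ≠ c • g w) :
    ∃ i j, Th ⟨_, hg j⟩ ≠ 0 ∧ ¬ MInf (Th ⟨_, hg i⟩ / Th ⟨_, hg j⟩) := by
  by_contra hcon
  push Not at hcon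
  have hgd : Differentiable ℂ g := differentiable_pi.2 hg
  apply sin_not hgd hne hnc
  have hfan : ∀ i, AnalyticOnNhd ℂ (fun w => g (Complex.sin w⁻¹) i) (PB 1) := by
    intro i w hw
    have hw0 : w ≠ 0 := hw.1
    exact AnalyticAt.comp (g := fun z => g (Complex.sin z) i) (sin_an (hg i) _) (analyticAt_inv hw0)
  have hPBinv : ∀ {w : ℂ}, w ∈ PB 1 → w⁻¹ ∈ Om := by
    intro w hw
    have := inv_mem_Ext hw
    rwa [inv_one] at this
  refine extends_of _ hfan (fun w _ => hne _) fun j k hj hk => ?_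
  have hzk : Th ⟨_, hg k⟩ ≠ 0 := by
    refine Th_ne (hg k) ?_
    by_contra h0
    push Not at h0
    apply hk
    exact Eventually.of_forall fun w => h0 _
  have hjk := hcon j k hzk
  obtain ⟨r, hr⟩ : ∃ r, r = Th ⟨_, hg j⟩ / Th ⟨_, hg k⟩ := ⟨_, rfl⟩
  rw [← hr] at hjk
  refine ⟨fun w => Fn r w⁻¹, hjk, ?_⟩
  have h1 : cl (fun z => g (Complex.sin z) j) (sin_mero (hg j)) =
      cl (fun t => Fn r t * g (Complex.sin t) k) ((Fn_mero _).mul (sin_mero (hg k))) := by
    have h4 : cl (fun t => Fn r t * g (Complex.sin t) k) ((Fn_mero _).mul (sin_mero (hg k))) =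
        cl (Fn r) (Fn_mero _) * cl (fun z => g (Complex.sin z) k) (sin_mero (hg k)) := rfl
    rw [h4, cl_Fn, hr]
    exact (div_mul_cancel₀ _ hzk).symm
  rw [cl_eq] at h1
  filter_upwards [minf_reg hjk, PB_mem one_pos] with w hw1 hw2
  have hwO := hPBinv hw2
  exact eq_of_cod (f := fun z => g (Complex.sin z) j) (g := fun t => Fn r t * g (Complex.sin t) k)
    h1 hwO (sin_an (hg j) _).continuousAt
    ((show AnalyticAt ℂ (Fn r) w⁻¹ from hw1).continuousAt.mul (sin_an (hg k) _).continuousAt)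

/-! ### Transcendence degrees -/

theorem trdeg_simple {K : Type} [Field K] [Algebra ℂ K] (τ : K) :
    Algebra.trdeg ℂ (adjoin ℂ {τ} : IntermediateField ℂ K) ≤ 1 := by
  obtain ⟨F, hF⟩ : ∃ F, F = (adjoin ℂ {τ} : IntermediateField ℂ K) := ⟨_, rfl⟩
  rw [← hF]
  have hτ : τ ∈ F := by rw [hF]; exact subset_adjoin ℂ _ rfl
  have htop : adjoin ℂ ({(⟨τ, hτ⟩ : F)} : Set F) = ⊤ := by
    have h1 : (adjoin ℂ ({(⟨τ, hτ⟩ : F)} : Set F)).map F.val =
        (⊤ : IntermediateField ℂ F).map F.val := by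
      rw [adjoin_map, Set.image_singleton, ← AlgHom.fieldRange_eq_map, fieldRange_val]
      exact hF.symm
    exact map_injective F.val h1
  have h2 : Algebra.IsAlgebraic (adjoin ℂ ({(⟨τ, hτ⟩ : F)} : Set F)) F := by
    rw [htop]
    infer_instance
  have h3 := alg_adjoin h2
  have h4 := Algebra.IsAlgebraic.trdeg_le_cardinalMk ℂ ({(⟨τ, hτ⟩ : F)} : Set F)
  rwa [Cardinal.mk_singleton] at h4

theorem trdeg_of_alg {K : Type} [Field K] [Algebra ℂ K] (τ : K) (E : IntermediateField ℂ K)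
    (h : ∀ x ∈ E, IsAlgebraic (adjoin ℂ {τ} : IntermediateField ℂ K) x) :
    Algebra.trdeg ℂ E ≤ 1 := by
  obtain ⟨F, hF⟩ : ∃ F, F = (adjoin ℂ {τ} : IntermediateField ℂ K) := ⟨_, rfl⟩
  have hF1 : Algebra.trdeg ℂ F ≤ 1 := by rw [hF]; exact trdeg_simple τ
  rw [← hF] at h
  let M : IntermediateField F K := algebraicClosure F K
  have h1 : Algebra.IsAlgebraic F M := algebraicClosure.isAlgebraic F K
  have h2 : Algebra.trdeg F M = 0 := trdeg_eq_zero_iff.2 h1
  have h3 := trdeg_add_eq ℂ F (A := M)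
  rw [h2, add_zero] at h3
  let j : E →ₐ[ℂ] M :=
    { toFun := fun x => ⟨(x : K), (mem_algebraicClosure_iff).2 (h x x.2)⟩
      map_one' := rfl
      map_mul' := fun _ _ => rfl
      map_zero' := rfl
      map_add' := fun _ _ => rfl
      commutes' := fun _ => rfl }
  have h4 := trdeg_le_of_injective j j.toRingHom.injective
  exact h4.trans (h3 ▸ hF1)

end Run7.h34.DR
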