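import Mathlib
import Pool.Agent.H159R3.Toric.Analytic
import Pool.Agent.N459.JS.Weier

/-!
Entire functions whose powers satisfy the equations of a variety without toric surfaces: any two
quotients are multiplicatively dependent.
-/

set_option autoImplicit false

namespace Run7.h34.DR

open MvPolynomial
open Pool.Agent.H159R3.NV (ent_eq_zero_or Ent Dv prop_of_Dv)

variable {n : ℕ} {ι : Type}

/-- The closed subset `F = 0` of `P^n` contains a toric surface: the closure of an orbit of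
dimension two of a torus of diagonal matrices. -/
def ToricSurface (F : ι → MvPolynomial (Fin (n + 1)) ℂ) : Prop :=
  ∃ (x : Fin (n + 1) → ℂ) (w w' : Fin (n + 1) → ℤ),
    (∃ i j k l, x i ≠ 0 ∧ x j ≠ 0 ∧ x k ≠ 0 ∧ x l ≠ 0 ∧
      (w i - w j) * (w' k - w' l) ≠ (w' i - w' j) * (w k - w l)) ∧
    ∀ s t : ℂ, s ≠ 0 → t ≠ 0 → ∀ e, eval (fun j => x j * s ^ w j * t ^ w' j) (F e) = 0

/-- All points of the curve `v` lie on toric surfaces in `F = 0`, of the same kind: orbits of a
two-dimensional torus of diagonal matrices (with the exponents `w`, `w'`, which are linearly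
independent modulo constants on the set of the coordinates of `v` which are not zero). -/
def Swept (F : ι → MvPolynomial (Fin (n + 1)) ℂ) (v : ℂ → Fin (n + 1) → ℂ) : Prop :=
  ∃ w w' : Fin (n + 1) → ℤ,
    (∃ i j k l, (∃ z, v z i ≠ 0) ∧ (∃ z, v z j ≠ 0) ∧ (∃ z, v z k ≠ 0) ∧ (∃ z, v z l ≠ 0) ∧
      (w i - w j) * (w' k - w' l) ≠ (w' i - w' j) * (w k - w l)) ∧
    ∀ z s t : ℂ, s ≠ 0 → t ≠ 0 → ∀ e, eval (fun j => v z j * s ^ w j * t ^ w' j) (F e) = 0

theorem countable_zeros {D : ℂ → ℂ} (hD : Differentiable ℂ D) (hne : ∃ z, D z ≠ 0) :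
    {z | D z = 0}.Countable := by
  have h1 : {z | D z = 0} = ⋃ r : ℕ, {z | ‖z‖ ≤ (r : ℝ) ∧ D z = 0} := by
    ext z
    simp only [Set.mem_setOf_eq, Set.mem_iUnion]
    constructor
    · intro h
      obtain ⟨r, hr⟩ := exists_nat_ge ‖z‖
      exact ⟨r, hr, h⟩
    · rintro ⟨r, -, h⟩
      exact h
  rw [h1]
  exact Set.countable_iUnion fun r => (Pool.Agent.N459.JS.finite_zeros hD hne r).countable

/-- integral multiples of a rational functional -/
theorem integral (ψ : Module.Dual ℚ ℂ) (u : Fin (n + 1) → ℂ) :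
    ∃ (D : ℕ) (b : Fin (n + 1) → ℤ), (D : ℚ) ≠ 0 ∧ ∀ j, (b j : ℚ) = D * ψ (u j) := by
  set D : ℕ := ∏ j, (ψ (u j)).den with hD
  have hD0 : (D : ℚ) ≠ 0 := by
    rw [hD]
    exact_mod_cast Finset.prod_ne_zero_iff.mpr fun j _ => (ψ (u j)).den_nz
  have hint : ∀ j, ∃ k : ℤ, (k : ℚ) = D * ψ (u j) := by
    intro j
    refine ⟨(∏ i ∈ Finset.univ.erase j, ((ψ (u i)).den : ℤ)) * (ψ (u j)).num, ?_⟩
    have e : (D : ℚ) = (ψ (u j)).den * ∏ i ∈ Finset.univ.erase j, ((ψ (u i)).den : ℚ) := by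
      rw [hD]
      push_cast
      rw [Finset.mul_prod_erase Finset.univ (fun i => ((ψ (u i)).den : ℚ)) (Finset.mem_univ j)]
    push_cast
    rw [e]
    have e2 : ((ψ (u j)).num : ℚ) = ψ (u j) * (ψ (u j)).den := by
      rw [mul_comm]; exact (Rat.den_mul_eq_num _).symm
    rw [e2]
    ring
  choose b hb using hint
  exact ⟨D, b, hD0, hb⟩

theorem sum_integral {ψ : Module.Dual ℚ ℂ} {u : Fin (n + 1) → ℂ} {D : ℕ} {b : Fin (n + 1) → ℤ}
    (hb : ∀ j, (b j : ℚ) = D * ψ (u j)) (α : Fin (n + 1) →₀ ℕ) :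
    ((∑ j, (α j : ℤ) * b j : ℤ) : ℚ) = D * ψ (∑ j, (α j : ℂ) * u j) := by
  rw [map_sum]
  push_cast
  rw [Finset.mul_sum]
  refine Finset.sum_congr rfl fun j _ => ?_
  have : (α j : ℂ) * u j = (α j : ℚ) • u j := by
    rw [Algebra.smul_def]
    simp
  rw [this, map_smul, smul_eq_mul, hb]
  ring

/-- a functional which separates -/
theorem exists_dual {A B : ℂ} (h : ∀ r : ℚ, A ≠ r • B) :
    ∃ ψ : Module.Dual ℚ ℂ, ψ A ≠ 0 ∧ ψ B = 0 := by
  have hA : A ∉ Submodule.span ℚ {B} := by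
    intro hA
    obtain ⟨r, hr⟩ := Submodule.mem_span_singleton.1 hA
    exact h r hr.symm
  obtain ⟨ψ, h1, h2⟩ := Submodule.exists_dual_map_eq_bot_of_notMem hA inferInstance
  refine ⟨ψ, h1, ?_⟩
  have h3 : ψ B ∈ (Submodule.span ℚ {B}).map ψ :=
    Submodule.mem_map_of_mem (Submodule.mem_span_singleton_self B)
  rw [h2] at h3
  exact (Submodule.mem_bot ℚ).1 h3

theorem eval_weights (x : Fin (n + 1) → ℂ) (w w' : Fin (n + 1) → ℤ) {s t : ℂ} (hs : s ≠ 0)
    (ht : t ≠ 0) (P : MvPolynomial (Fin (n + 1)) ℂ) :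
    eval (fun j => x j * s ^ w j * t ^ w' j) P = ∑ α ∈ P.support,
      (P.coeff α * ∏ j, x j ^ α j) *
        (s ^ (∑ j, (α j : ℤ) * w j) * t ^ (∑ j, (α j : ℤ) * w' j)) := by
  rw [eval_eq']
  refine Finset.sum_congr rfl fun α _ => ?_
  have h1 : ∀ (r : ℂ) (hr : r ≠ 0) (b : Fin (n + 1) → ℤ),
      ∏ j, (r ^ b j) ^ α j = r ^ (∑ j, (α j : ℤ) * b j) := by
    intro r hr b
    have h2 : ∀ S : Finset (Fin (n + 1)), ∏ j ∈ S, (r ^ b j) ^ α j =
        r ^ (∑ j ∈ S, (α j : ℤ) * b j) := by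
      intro S
      induction S using Finset.induction_on with
      | empty => simp
      | insert i S hi ih =>
        rw [Finset.prod_insert hi, Finset.sum_insert hi, zpow_add₀ hr, ih, mul_comm (α i : ℤ),
          zpow_mul, zpow_natCast]
    exact h2 _
  simp only [mul_pow, Finset.prod_mul_distrib]
  rw [h1 s hs w, h1 t ht w']
  ring

section

variable {h : Fin (n + 1) → ℂ → ℂ} (hd : ∀ j, Differentiable ℂ (h j)) {m s : ℕ} (hm : 0 < m)
  (hs : (s - 1) ^ 2 ≤ m) {F : ι → MvPolynomial (Fin (n + 1)) ℂ}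
  (hF : ∀ e, (F e).support.card ≤ s) (hV : ∀ z e, eval (fun j => h j z ^ m) (F e) = 0)

include hd hm hs hF hV

/-- the parts with the same logarithmic derivative vanish -/
theorem parts (z0 : ℂ) (hz0 : ∀ j, (∃ z, h j z ≠ 0) → h j z0 ≠ 0) (e : ι) (lam : ℂ) :
    ∑ α ∈ (F e).support.filter
      (fun α => ∑ j, (α j : ℂ) * (deriv (h j) z0 / h j z0) = lam),
      (F e).coeff α * ∏ j, (h j z0 ^ m) ^ α j = 0 := by
  classical
  let H : (Fin (n + 1) →₀ ℕ) → ℂ → ℂ := fun α z => ∏ j, h j z ^ α j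
  have hHd : ∀ α, Differentiable ℂ (H α) := fun α =>
    Differentiable.fun_finsetProd fun j _ => (hd j).pow _
  have hHm : ∀ α z, H α z ^ m = ∏ j, (h j z ^ m) ^ α j := by
    intro α z
    simp only [H]
    rw [← Finset.prod_pow]
    exact Finset.prod_congr rfl fun j _ => by rw [← pow_mul, ← pow_mul, mul_comm]
  have hnz : ∀ α, (∃ z, H α z ≠ 0) → H α z0 ≠ 0 := by
    rintro α ⟨z, hz⟩
    simp only [H] at hz ⊢
    rw [Finset.prod_ne_zero_iff] at hz ⊢
    intro j hj
    have h2 := hz j hj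
    by_cases hα0 : α j = 0
    · rw [hα0, pow_zero]; exact one_ne_zero
    · apply pow_ne_zero
      apply hz0
      exact ⟨z, fun h0 => h2 (by rw [h0, zero_pow hα0])⟩
  have hlog : ∀ α, (∃ z, H α z ≠ 0) →
      logDeriv (H α) z0 = ∑ j, (α j : ℂ) * (deriv (h j) z0 / h j z0) := by
    intro α hz
    have h1 := hnz α hz
    simp only [H] at h1 ⊢
    rw [Finset.prod_ne_zero_iff] at h1
    rw [logDeriv_prod]
    · refine Finset.sum_congr rfl fun j _ => ?_
      rw [logDeriv_fun_pow (hd j z0)]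
      rfl
    · intro j hj
      exact h1 j hj
    · intro j _
      exact ((hd j z0).pow _)
  have h1 := Pool.Agent.H159R3.Toric.class_sums hm H hHd
    (fun α => ∑ j, (α j : ℂ) * (deriv (h j) z0 / h j z0)) (F e).support
    ((Nat.pow_le_pow_left (Nat.sub_le_sub_right (hF e) 1) 2).trans hs)
    (fun α _ β _ ha hb hc => by
      obtain ⟨c, hc⟩ := hc
      have hc0 : c ≠ 0 := by
        rintro rfl
        obtain ⟨z, hz⟩ := ha
        exact hz (by rw [hc z, zero_mul])
      rw [← hlog α ha, ← hlog β hb]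
      have h2 : H α = fun z => c * H β z := funext hc
      rw [h2, logDeriv_const_mul z0 c hc0]) (fun α => (F e).coeff α) (fun z => by
      have h2 := hV z e
      rw [eval_eq'] at h2
      rw [← h2]
      exact Finset.sum_congr rfl fun α _ => by rw [hHm]) lam z0
  rw [← h1]
  exact Finset.sum_congr rfl fun α _ => by rw [hHm]

/-- rational dependence of the logarithmic derivatives of two quotients, or a toric surface -/
theorem dependent (z0 : ℂ) (hz0 : ∀ j, (∃ z, h j z ≠ 0) → h j z0 ≠ 0)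
    (i j k l : Fin (n + 1)) :
    (∃ p q : ℤ, (p ≠ 0 ∨ q ≠ 0) ∧
      p * (deriv (h i) z0 / h i z0 - deriv (h j) z0 / h j z0) +
      q * (deriv (h k) z0 / h k z0 - deriv (h l) z0 / h l z0) = 0) ∨
    ∃ w w' : Fin (n + 1) → ℤ, (w i - w j) * (w' k - w' l) ≠ (w' i - w' j) * (w k - w l) ∧
      ∀ s t : ℂ, s ≠ 0 → t ≠ 0 → ∀ e,
        eval (fun j => h j z0 ^ m * s ^ w j * t ^ w' j) (F e) = 0 := by
  classical
  by_contra hcon
  rw [not_or] at hcon
  obtain ⟨hcon, hT⟩ := hcon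
  push Not at hcon
  set u : Fin (n + 1) → ℂ := fun j => deriv (h j) z0 / h j z0 with hu
  obtain ⟨ψ, h1, h2⟩ := exists_dual (A := u i - u j) (B := u k - u l) (fun r hr => by
    refine hcon r.den (-r.num) (Or.inl (by exact_mod_cast r.den_nz)) ?_
    have h3 : ((r.den : ℤ) : ℂ) * (u i - u j) = (r.num : ℂ) * (u k - u l) := by
      rw [hr, Algebra.smul_def, ← mul_assoc]
      congr 1
      have h4 : ((r.den : ℚ) * r : ℚ) = r.num := by
        rw [mul_comm]; exact Rat.mul_den_eq_num r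
      have h5 := congrArg (algebraMap ℚ ℂ) h4
      simp only [map_mul, map_natCast, map_intCast] at h5
      simpa using h5
    show ((r.den : ℤ) : ℂ) * (u i - u j) + ((-r.num : ℤ) : ℂ) * (u k - u l) = 0
    rw [h3]
    push_cast
    ring)
  obtain ⟨ψ', h1', h2'⟩ := exists_dual (A := u k - u l) (B := u i - u j) (fun r hr => by
    refine hcon (-r.num) r.den (Or.inr (by exact_mod_cast r.den_nz)) ?_
    have h3 : ((r.den : ℤ) : ℂ) * (u k - u l) = (r.num : ℂ) * (u i - u j) := by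
      rw [hr, Algebra.smul_def, ← mul_assoc]
      congr 1
      have h4 : ((r.den : ℚ) * r : ℚ) = r.num := by
        rw [mul_comm]; exact Rat.mul_den_eq_num r
      have h5 := congrArg (algebraMap ℚ ℂ) h4
      simp only [map_mul, map_natCast, map_intCast] at h5
      simpa using h5
    show ((-r.num : ℤ) : ℂ) * (u i - u j) + ((r.den : ℤ) : ℂ) * (u k - u l) = 0
    rw [h3]
    push_cast
    ring)
  obtain ⟨D, b, hD, hb⟩ := integral ψ u
  obtain ⟨D', b', hD', hb'⟩ := integral ψ' u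
  apply hT
  refine ⟨b, b', ?_, ?_⟩
  · intro heq
    have h3 : (((b i - b j) * (b' k - b' l) : ℤ) : ℚ) = (((b' i - b' j) * (b k - b l) : ℤ) : ℚ) := by
      rw [heq]
    push_cast at h3
    rw [hb, hb, hb, hb, hb', hb', hb', hb'] at h3
    have e1 : (D : ℚ) * ψ (u i) - D * ψ (u j) = D * ψ (u i - u j) := by rw [map_sub]; ring
    have e2 : (D' : ℚ) * ψ' (u k) - D' * ψ' (u l) = D' * ψ' (u k - u l) := by rw [map_sub]; ring
    have e3 : (D' : ℚ) * ψ' (u i) - D' * ψ' (u j) = D' * ψ' (u i - u j) := by rw [map_sub]; ring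
    rw [e1, e2, e3, h2', mul_zero, zero_mul] at h3
    exact mul_ne_zero (mul_ne_zero hD h1) (mul_ne_zero hD' h1') h3
  · intro s t hs' ht e
    rw [eval_weights _ _ _ hs' ht]
    rw [← Finset.sum_fiberwise_of_maps_to (g := fun α : Fin (n + 1) →₀ ℕ => ∑ j, (α j : ℂ) * u j)
      (t := (F e).support.image fun α => ∑ j, (α j : ℂ) * u j)
      (fun α hα => Finset.mem_image_of_mem _ hα)]
    refine Finset.sum_eq_zero fun lam hlam => ?_
    obtain ⟨β, -, hβ⟩ := Finset.mem_image.1 hlam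
    have h3 : ∀ α ∈ (F e).support.filter fun α => ∑ j, (α j : ℂ) * u j = lam,
        ((F e).coeff α * ∏ j, (h j z0 ^ m) ^ α j) *
          (s ^ (∑ j, (α j : ℤ) * b j) * t ^ (∑ j, (α j : ℤ) * b' j)) =
        ((F e).coeff α * ∏ j, (h j z0 ^ m) ^ α j) *
          (s ^ (∑ j, (β j : ℤ) * b j) * t ^ (∑ j, (β j : ℤ) * b' j)) := by
      intro α hα
      have h4 := (Finset.mem_filter.1 hα).2
      have h5 : ∑ j, (α j : ℤ) * b j = ∑ j, (β j : ℤ) * b j := by
        have h6 := sum_integral hb α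
        rw [h4, ← hβ, ← sum_integral hb β] at h6
        exact_mod_cast h6
      have h5' : ∑ j, (α j : ℤ) * b' j = ∑ j, (β j : ℤ) * b' j := by
        have h6 := sum_integral hb' α
        rw [h4, ← hβ, ← sum_integral hb' β] at h6
        exact_mod_cast h6
      rw [h5, h5']
    rw [Finset.sum_congr rfl h3, ← Finset.sum_mul, parts hd hm hs hF hV z0 hz0 e lam, zero_mul]

/-- multiplicative dependence of two quotients, or toric surfaces -/
theorem mult {i j k l : Fin (n + 1)} (hi : ∃ z, h i z ≠ 0)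
    (hj : ∃ z, h j z ≠ 0) (hk : ∃ z, h k z ≠ 0) (hl : ∃ z, h l z ≠ 0) :
    (∃ p q : ℤ, (p ≠ 0 ∨ q ≠ 0) ∧ ∀ z,
      p * ((deriv (h i) z * h j z - h i z * deriv (h j) z) * (h k z * h l z)) +
      q * ((deriv (h k) z * h l z - h k z * deriv (h l) z) * (h i z * h j z)) = 0) ∨
    Swept F fun z j => h j z ^ m := by
  classical
  by_contra hcon
  rw [not_or] at hcon
  obtain ⟨hcon, hT⟩ := hcon
  push Not at hcon
  have hdd : ∀ j, Differentiable ℂ (deriv (h j)) := fun j =>
    ((hd j).contDiff (n := 2)).differentiable_deriv_two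
  let W : ℤ × ℤ → ℂ → ℂ := fun pq z =>
    pq.1 * ((deriv (h i) z * h j z - h i z * deriv (h j) z) * (h k z * h l z)) +
      pq.2 * ((deriv (h k) z * h l z - h k z * deriv (h l) z) * (h i z * h j z))
  have hW : ∀ pq, Differentiable ℂ (W pq) := fun pq =>
    (((((hdd i).mul (hd j)).sub ((hd i).mul (hdd j))).mul ((hd k).mul (hd l))).const_mul _).add
      (((((hdd k).mul (hd l)).sub ((hd k).mul (hdd l))).mul ((hd i).mul (hd j))).const_mul _)
  have hbad : (⋃ pq : {pq : ℤ × ℤ // pq.1 ≠ 0 ∨ pq.2 ≠ 0}, {z | W pq.1 z = 0}).Countable :=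
    Set.countable_iUnion fun pq => countable_zeros (hW _) (by
      obtain ⟨z, hz⟩ := hcon pq.1.1 pq.1.2 pq.2
      exact ⟨z, hz⟩)
  have hbad' : (⋃ j : {j : Fin (n + 1) // ∃ z, h j z ≠ 0}, {z | h j.1 z = 0}).Countable :=
    Set.countable_iUnion fun j => countable_zeros (hd _) j.2
  let Z : (Fin (n + 1) → ℤ) × (Fin (n + 1) → ℤ) → Set ℂ := fun ww =>
    {z | ∀ s t : ℂ, s ≠ 0 → t ≠ 0 → ∀ e,
      eval (fun j => h j z ^ m * s ^ ww.1 j * t ^ ww.2 j) (F e) = 0}
  have hbad2 : (⋃ ww : {ww : (Fin (n + 1) → ℤ) × (Fin (n + 1) → ℤ) //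
      (ww.1 i - ww.1 j) * (ww.2 k - ww.2 l) ≠ (ww.2 i - ww.2 j) * (ww.1 k - ww.1 l)},
      Z ww.1).Countable := by
    refine Set.countable_iUnion fun ww => ?_
    by_contra hunc
    apply hT
    refine ⟨ww.1.1, ww.1.2, ⟨i, j, k, l, ?_, ?_, ?_, ?_, ww.2⟩, fun z s t hs' ht e => ?_⟩
    · obtain ⟨z, hz⟩ := hi
      exact ⟨z, pow_ne_zero _ hz⟩
    · obtain ⟨z, hz⟩ := hj
      exact ⟨z, pow_ne_zero _ hz⟩
    · obtain ⟨z, hz⟩ := hk
      exact ⟨z, pow_ne_zero _ hz⟩
    · obtain ⟨z, hz⟩ := hl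
      exact ⟨z, pow_ne_zero _ hz⟩
    · have hdiff : Differentiable ℂ fun z =>
          eval (fun j => h j z ^ m * s ^ ww.1.1 j * t ^ ww.1.2 j) (F e) := by
        simp only [eval_eq']
        exact Differentiable.fun_sum fun α _ =>
          (Differentiable.fun_finsetProd fun j _ =>
            ((((hd j).pow m).mul_const _).mul_const _).pow _).const_mul _
      by_contra hne
      exact hunc ((countable_zeros hdiff ⟨z, hne⟩).mono fun z' hz' => hz' s t hs' ht e)
  apply not_countable_complex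
  refine ((hbad.union hbad').union hbad2).mono fun z _ => ?_
  by_cases hz : ∀ j, (∃ z, h j z ≠ 0) → h j z ≠ 0
  · rcases dependent hd hm hs hF hV z hz i j k l with ⟨p, q, hpq, h1⟩ | ⟨w, w', hww, h1⟩
    · left
      left
      refine Set.mem_iUnion.2 ⟨⟨(p, q), hpq⟩, ?_⟩
      show (p : ℂ) * _ + q * _ = 0
      have hi0 := hz i hi
      have hj0 := hz j hj
      have hk0 := hz k hk
      have hl0 := hz l hl
      field_simp at h1
      linear_combination h1
    · right
      exact Set.mem_iUnion.2 ⟨⟨(w, w'), hww⟩, h1⟩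
  · left
    right
    push Not at hz
    obtain ⟨j, hj1, hj2⟩ := hz
    exact Set.mem_iUnion.2 ⟨⟨j, hj1⟩, hj2⟩

end

/-- from the differential relation to a multiplicative one -/
theorem const_of {h : Fin (n + 1) → ℂ → ℂ} (hd : ∀ j, Differentiable ℂ (h j))
    {i j k l : Fin (n + 1)} (hi : ∃ z, h i z ≠ 0) (hj : ∃ z, h j z ≠ 0) (hk : ∃ z, h k z ≠ 0)
    (hl : ∃ z, h l z ≠ 0) (p q : ℕ) (hrel : ∀ z,
      p * ((deriv (h i) z * h j z - h i z * deriv (h j) z) * (h k z * h l z)) +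
      q * ((deriv (h k) z * h l z - h k z * deriv (h l) z) * (h i z * h j z)) = 0) :
    ∃ c : ℂ, ∀ z, h i z ^ p * h k z ^ q = c * (h j z ^ p * h l z ^ q) := by
  let H : Fin (n + 1) → Ent := fun j => ⟨h j, hd j⟩
  have hne : ∀ j, (∃ z, h j z ≠ 0) → H j ≠ 0 := by
    rintro j ⟨z, hz⟩ h0
    exact hz (congrFun (congrArg Subtype.val h0) z)
  have hrelE : (p : Ent) * ((Dv (H i) * H j - H i * Dv (H j)) * (H k * H l)) +
      (q : Ent) * ((Dv (H k) * H l - H k * Dv (H l)) * (H i * H j)) = 0 := by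
    apply Subtype.ext
    funext z
    exact hrel z
  have hdom : ∀ a b : Ent, a * b = 0 → a = 0 ∨ b = 0 := by
    intro a b hab
    rcases ent_eq_zero_or (f := (a : ℂ → ℂ)) (g := (b : ℂ → ℂ)) a.2 b.2
      (fun z => congrFun (congrArg Subtype.val hab) z) with h1 | h1
    · exact Or.inl (Subtype.ext h1)
    · exact Or.inr (Subtype.ext h1)
  have hpow : ∀ (a : Ent), a ≠ 0 → ∀ r : ℕ, a ^ r ≠ 0 := by
    intro a ha r
    induction r with
    | zero =>
      rw [pow_zero]
      intro h0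
      exact one_ne_zero (congrFun (congrArg Subtype.val h0) 0)
    | succ r ih =>
      rw [pow_succ]
      intro h0
      rcases hdom _ _ h0 with h1 | h1
      · exact ih h1
      · exact ha h1
  have hb : H j ^ p * H l ^ q ≠ 0 := fun h0 => by
    rcases hdom _ _ h0 with h1 | h1
    · exact hpow _ (hne j hj) p h1
    · exact hpow _ (hne l hl) q h1
  have hijkl : H i * H j * (H k * H l) ≠ 0 := fun h0 => by
    rcases hdom _ _ h0 with h1 | h1
    · rcases hdom _ _ h1 with h2 | h2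
      · exact hne i hi h2
      · exact hne j hj h2
    · rcases hdom _ _ h1 with h2 | h2
      · exact hne k hk h2
      · exact hne l hl h2
  obtain ⟨c, hc⟩ := prop_of_Dv (H j ^ p * H l ^ q) hb (H i ^ p * H k ^ q) (by
    -- multiply by `H i * H j * (H k * H l)`
    have hD : ∀ (a : Ent) (r : ℕ), a * Dv (a ^ r) = r * (a ^ r * Dv a) := by
      intro a r
      rw [Derivation.leibniz_pow]
      rcases r with - | r
      · simp
      · simp only [Nat.add_sub_cancel, smul_eq_mul, nsmul_eq_mul, pow_succ]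
        ring
    have h1 : H i * H j * (H k * H l) * ((H i ^ p * H k ^ q) * Dv (H j ^ p * H l ^ q) -
        (H j ^ p * H l ^ q) * Dv (H i ^ p * H k ^ q)) = 0 := by
      rw [Derivation.leibniz, Derivation.leibniz]
      simp only [smul_eq_mul]
      linear_combination (H i * H k * H l * H i ^ p * H k ^ q * H l ^ q) * hD (H j) p +
        (H i * H j * H k * H i ^ p * H k ^ q * H j ^ p) * hD (H l) q -
        (H j * H k * H l * H j ^ p * H l ^ q * H k ^ q) * hD (H i) p -
        (H i * H j * H l * H j ^ p * H l ^ q * H i ^ p) * hD (H k) q -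
        (H i ^ p * H k ^ q * H j ^ p * H l ^ q) * hrelE
    rcases hdom _ _ h1 with h2 | h2
    · exact absurd h2 hijkl
    · exact sub_eq_zero.1 h2)
  refine ⟨c, fun z => ?_⟩
  exact congrFun (congrArg Subtype.val hc) z

/-- **Multiplicative relations.** -/
theorem rel {h : Fin (n + 1) → ℂ → ℂ} (hd : ∀ j, Differentiable ℂ (h j)) {m s : ℕ} (hm : 0 < m)
    (hs : (s - 1) ^ 2 ≤ m) {F : ι → MvPolynomial (Fin (n + 1)) ℂ}
    (hF : ∀ e, (F e).support.card ≤ s) (hV : ∀ z e, eval (fun j => h j z ^ m) (F e) = 0)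
    (hT : ¬ Swept F fun z j => h j z ^ m) {i j k l : Fin (n + 1)} (hi : ∃ z, h i z ≠ 0)
    (hj : ∃ z, h j z ≠ 0) (hk : ∃ z, h k z ≠ 0) (hl : ∃ z, h l z ≠ 0) :
    ∃ (p q : ℕ) (c : ℂ), (p ≠ 0 ∨ q ≠ 0) ∧
      ((∀ z, h i z ^ p * h k z ^ q = c * (h j z ^ p * h l z ^ q)) ∨
      (∀ z, h i z ^ p * h l z ^ q = c * (h j z ^ p * h k z ^ q))) := by
  obtain ⟨p, q, hpq, hrel⟩ := (mult hd hm hs hF hV hi hj hk hl).resolve_right hT
  -- we may assume that `p` is not negative
  wlog hp : 0 ≤ p generalizing p q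
  · refine this (-p) (-q) (by simpa using hpq) (fun z => ?_) (by omega)
    have := hrel z
    push_cast
    linear_combination -this
  obtain ⟨p', rfl⟩ := Int.eq_ofNat_of_zero_le hp
  rcases le_total 0 q with hq | hq
  · obtain ⟨q', rfl⟩ := Int.eq_ofNat_of_zero_le hq
    obtain ⟨c, hc⟩ := const_of hd hi hj hk hl p' q' (fun z => by
      have := hrel z
      push_cast at this
      exact this)
    exact ⟨p', q', c, by simpa using hpq, Or.inl hc⟩
  · obtain ⟨q', hq'⟩ := Int.eq_ofNat_of_zero_le (neg_nonneg.2 hq)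
    obtain ⟨c, hc⟩ := const_of hd hi hj hl hk p' q' (fun z => by
      have := hrel z
      have e : (q : ℂ) = -(q' : ℂ) := by
        have : q = -(q' : ℤ) := by omega
        rw [this]
        push_cast
        rfl
      rw [e] at this
      push_cast at this
      linear_combination this)
    refine ⟨p', q', c, ?_, Or.inr hc⟩
    rcases hpq with h1 | h1
    · left; simpa using h1
    · right; omega

/-- toric surfaces through the points of a curve -/
theorem Swept.toric {F : ι → MvPolynomial (Fin (n + 1)) ℂ} {v : ℂ → Fin (n + 1) → ℂ}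
    (hv : ∀ j, Differentiable ℂ fun z => v z j) (h : Swept F v) : ToricSurface F := by
  obtain ⟨w, w', ⟨i, j, k, l, hi, hj, hk, hl, hne⟩, h⟩ := h
  have hbad : (⋃ j : {j : Fin (n + 1) // ∃ z, v z j ≠ 0}, {z | v z j.1 = 0}).Countable :=
    Set.countable_iUnion fun j => countable_zeros (hv _) j.2
  obtain ⟨z, hz⟩ : ∃ z, ∀ j, (∃ z, v z j ≠ 0) → v z j ≠ 0 := by
    by_contra hcon
    push Not at hcon
    apply not_countable_complex
    refine hbad.mono fun z _ => ?_
    obtain ⟨j, hj1, hj2⟩ := hcon z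
    exact Set.mem_iUnion.2 ⟨⟨j, hj1⟩, hj2⟩
  exact ⟨v z, w, w', ⟨i, j, k, l, hz i hi, hz j hj, hz k hk, hz l hl, hne⟩, h z⟩

end Run7.h34.DR
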