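import Pool.Agent.Q96.LS.Cur
import Pool.Agent.Run7.h34.DR.Ell
import Pool.Agent.Run7.h34.DR.Rel
import Pool.Agent.Run7.h34.DR.Gpc
import Pool.Agent.Run7.h34.DR.Fld
import Pool.Agent.Y221.AP.Inf

/-!
Entire curves in divisibly ramified closed subsets of `P^N × P^n`.
-/

set_option autoImplicit false
set_option linter.unusedSectionVars false

namespace Run7.h34.DR

open FF MvPolynomial Filter Metric Topology IntermediateField
open Pool.Agent.W602.Cov Pool.Agent.W602.GT
open Pool.Agent.W602.Cov.R hiding Ent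
open Pool.Agent.TH152.HY (null)
open Pool.Agent.Y221.AP (MK MInf MI)
open Pool.Agent.H159R3.NV (Ent)
open Pool.Agent.W603.LV (canDeg)

variable {N n : ℕ} {ι : Type}

/-- scaling of the coordinates -/
theorem scale {G : BiPoly N n} {D D' : ℕ} (hG : BiHom G D D') {L : Type} [Field L] [Algebra ℂ L]
    (a : Fin (N + 1) → L) (b : Fin (n + 1) → L) (lam mu : L) :
    aeval (Sum.elim (fun i => lam * a i) fun j => mu * b j) G =
      lam ^ D * mu ^ D' * aeval (Sum.elim a b) G := by
  rw [aeval_def, aeval_def, eval₂_eq', eval₂_eq', Finset.mul_sum]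
  refine Finset.sum_congr rfl fun α hα => ?_
  have h1 := hG (mem_support_iff.1 hα)
  rw [Finsupp.weight_apply, Finsupp.sum_fintype _ _ (by simp), Fintype.sum_sum_type] at h1
  have hD : ∑ i, α (Sum.inl i) = D := by
    have := congrArg Prod.fst h1
    simpa [Prod.fst_sum] using this
  have hD' : ∑ j, α (Sum.inr j) = D' := by
    have := congrArg Prod.snd h1
    simpa [Prod.snd_sum] using this
  rw [Fintype.prod_sum_type, Fintype.prod_sum_type]
  simp only [Sum.elim_inl, Sum.elim_inr, mul_pow, Finset.prod_mul_distrib]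
  rw [Finset.prod_pow_eq_pow_sum, Finset.prod_pow_eq_pow_sum, hD, hD']
  ring

theorem transc_of {x : MK} (hx : ¬ MInf x) : Transcendental ℂ x := by
  intro halg
  exact hx (Pool.Agent.Y221.AP.minf_of_alg (halg.tower_top MI))

/-- a finitely generated subfield of dimension one with an element which is not meromorphic at
infinity is contained in the function field of an elliptic curve -/
theorem elliptic_of (E : IntermediateField ℂ MK) (hfg : E.FG) (htr : Algebra.trdeg ℂ E ≤ 1)
    {f : E} (hf : ¬ MInf (f : MK)) :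
    IsFF ℂ E ∧ ∃ (E' : Type) (_ : Field E') (_ : Algebra ℂ E') (_ : IsFF ℂ E') (_ : E →ₐ[ℂ] E'),
      IsElliptic E' := by
  have hess : Algebra.EssFiniteType ℂ E := IntermediateField.essFiniteType_iff.2 hfg
  have hft : Transcendental ℂ f := by
    intro halg
    exact transc_of hf (halg.algHom E.val)
  have htr1 : Algebra.trdeg ℂ E = 1 := by
    refine le_antisymm htr ?_
    rw [Cardinal.one_le_iff_ne_zero]
    intro h0
    rw [trdeg_eq_zero_iff] at h0
    exact hft (h0.isAlgebraic f)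
  have hff : IsFF ℂ E := ⟨hess, htr1⟩
  refine ⟨hff, exists_ell ?_⟩
  by_contra hcon
  rw [not_le] at hcon
  have hgt : GeneralType ℂ E 1 := by
    obtain ⟨h1, N, hN, ω, h2, -, h3, h4⟩ :=
      Pool.Agent.Q96.LS.lgt_one (L := E) ∅ (by simpa using hcon)
    exact ⟨h1, N, hN, ω, h2, fun P hP j => h3 P hP (Finset.notMem_empty P) j, h4⟩
  exact hf (Gpc.t_gpc E hgt f)

theorem alg_coords {K : Type} [Field K] [Algebra ℂ K] (F : IntermediateField ℂ K)
    (B : Fin (n + 1) → K) (h : ∀ i j, B j ≠ 0 → IsAlgebraic F (B i / B j)) :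
    ∀ x ∈ coords ℂ B, IsAlgebraic F x := by
  have h1 : coords ℂ B ≤ (algebraicClosure F K).restrictScalars ℂ := by
    unfold coords
    rw [adjoin_le_iff]
    rintro x ⟨i, j, hj, rfl⟩
    exact mem_algebraicClosure_iff.2 (h i j hj)
  intro x hx
  exact mem_algebraicClosure_iff.1 (h1 hx)

theorem fg_coords {K : Type} [Field K] [Algebra ℂ K] (B : Fin (n + 1) → K) :
    (coords ℂ B).FG := by
  unfold coords
  refine fg_adjoin_of_finite ?_
  refine (Set.finite_range fun p : Fin (n + 1) × Fin (n + 1) => B p.1 / B p.2).subset ?_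
  rintro _ ⟨i, j, _, rfl⟩
  exact ⟨(i, j), rfl⟩

theorem mem_coords {K : Type} [Field K] [Algebra ℂ K] (B : Fin (n + 1) → K) (i j : Fin (n + 1))
    (hj : B j ≠ 0) : B i / B j ∈ coords ℂ B := subset_adjoin _ _ ⟨i, j, hj, rfl⟩

/-- the dimension of the closure of the image -/
theorem dim_le {h : Fin (n + 1) → ℂ → ℂ} (hh : ∀ j, Differentiable ℂ (h j)) {m s : ℕ} (hm : 0 < m)
    (hs : (s - 1) ^ 2 ≤ m) {F : ι → MvPolynomial (Fin (n + 1)) ℂ}
    (hF : ∀ e, (F e).support.card ≤ s) (hV : ∀ z e, eval (fun j => h j z ^ m) (F e) = 0)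
    (hT : ¬ Swept F fun z j => h j z ^ m) {B : Fin (n + 1) → MK} (hB : ∀ j, B j = Th ⟨h j, hh j⟩ ^ m) :
    Algebra.trdeg ℂ (coords ℂ B) ≤ 1 := by
  have hne : ∀ j, B j ≠ 0 → ∃ z, h j z ≠ 0 := by
    intro j hj
    by_contra hcon
    push Not at hcon
    apply hj
    rw [hB]
    have h1 : (⟨h j, hh j⟩ : Ent) = 0 := Subtype.ext (funext hcon)
    rw [h1, map_zero, zero_pow hm.ne']
  by_cases hconst : ∀ i j, B j ≠ 0 → IsAlgebraic ℂ (B i / B j)
  · exact trdeg_of_alg (0 : MK) _ (alg_coords _ B fun i j hj => (hconst i j hj).tower_top _)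
  push Not at hconst
  obtain ⟨k, l, hl, hkl⟩ := hconst
  have hk : B k ≠ 0 := by
    intro h0
    apply hkl
    rw [h0, zero_div]
    exact isAlgebraic_zero
  refine trdeg_of_alg (B k / B l) _ (alg_coords _ B fun i j hj => ?_)
  by_cases hi : B i = 0
  · rw [hi, zero_div]
    exact isAlgebraic_zero
  obtain ⟨F0, hF0⟩ : ∃ F0, F0 = (adjoin ℂ {B k / B l} : IntermediateField ℂ MK) := ⟨_, rfl⟩
  rw [← hF0]
  have hτ : B k / B l ∈ F0 := by rw [hF0]; exact subset_adjoin ℂ _ rfl
  obtain ⟨p, q, c, hpq, hrel⟩ := rel hh hm hs hF hV hT (hne i hi) (hne j hj) (hne k hk) (hne l hl)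
  -- the relation in the field
  have hrel' : (B i / B j) ^ p = algebraMap ℂ MK (c ^ m) * (B k / B l)⁻¹ ^ q ∨
      (B i / B j) ^ p = algebraMap ℂ MK (c ^ m) * (B k / B l) ^ q := by
    have hE : ∀ (i j k l : Fin (n + 1)),
        (∀ z, h i z ^ p * h k z ^ q = c * (h j z ^ p * h l z ^ q)) →
        B i ^ p * B k ^ q = algebraMap ℂ MK (c ^ m) * (B j ^ p * B l ^ q) := by
      intro i j k l hz
      have h1 : (⟨h i, hh i⟩ : Ent) ^ p * (⟨h k, hh k⟩ : Ent) ^ q =
          algebraMap ℂ Ent c * ((⟨h j, hh j⟩ : Ent) ^ p * (⟨h l, hh l⟩ : Ent) ^ q) := by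
        apply Subtype.ext
        funext z
        exact hz z
      have h2 := congrArg (fun x => Th x ^ m) h1
      simp only [map_mul, map_pow, AlgHom.commutes, mul_pow] at h2
      rw [hB, hB, hB, hB, map_pow]
      simp only [← pow_mul, mul_comm m] at h2 ⊢
      exact h2
    rcases hrel with h1 | h1
    · left
      have h2 := hE i j k l h1
      rw [div_pow, div_eq_iff (pow_ne_zero _ hj), inv_div, div_pow]
      field_simp
      linear_combination h2
    · right
      have h2 := hE i j l k h1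
      rw [div_pow, div_eq_iff (pow_ne_zero _ hj), div_pow]
      field_simp
      linear_combination h2
  have hp : p ≠ 0 := by
    rintro rfl
    have hq : q ≠ 0 := hpq.resolve_left (by simp)
    rw [pow_zero] at hrel'
    apply hkl
    have hτ0 : B k / B l ≠ 0 := div_ne_zero hk hl
    have h1 : ∃ c' : ℂ, (B k / B l) ^ q = algebraMap ℂ MK c' := by
      rcases hrel' with h1 | h1
      · refine ⟨c ^ m, ?_⟩
        rw [inv_pow, ← div_eq_mul_inv, eq_div_iff (pow_ne_zero _ hτ0), one_mul] at h1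
        exact h1
      · refine ⟨(c ^ m)⁻¹, ?_⟩
        rw [map_inv₀]
        exact eq_inv_of_mul_eq_one_right h1.symm
    obtain ⟨c', hc'⟩ := h1
    refine IsAlgebraic.of_pow (Nat.pos_of_ne_zero hq) ?_
    rw [hc']
    exact isAlgebraic_algebraMap c'
  refine IsAlgebraic.of_pow (Nat.pos_of_ne_zero hp) ?_
  have hmem : (B i / B j) ^ p ∈ F0 := by
    rcases hrel' with h1 | h1 <;> rw [h1]
    · exact mul_mem (F0.algebraMap_mem _) (pow_mem (inv_mem hτ) _)
    · exact mul_mem (F0.algebraMap_mem _) (pow_mem hτ _)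
  exact isAlgebraic_algebraMap (R := F0) (A := MK) ⟨_, hmem⟩

/-- **Entire curves.** -/
theorem main {X : BiSet N n} {m s : ℕ} (hm : 0 < m) (hs : (s - 1) ^ 2 ≤ m)
    {F : ι → MvPolynomial (Fin (n + 1)) ℂ} (hF : ∀ e, (F e).support.card ≤ s)
    (hX : Divisible X m)
    (hV : ∀ (u : Fin (N + 1) → ℂ) (v : Fin (n + 1) → ℂ), X.Mem u v → ∀ e, eval v (F e) = 0)
    (hL : LowFibres X) {u : ℂ → Fin (N + 1) → ℂ} {v : ℂ → Fin (n + 1) → ℂ}
    (huv : X.EntireCurve u v) (hT : ¬ Swept F v) :
    ∃ (E : Type) (_ : Field E) (_ : Algebra ℂ E) (a : Fin (N + 1) → E) (b : Fin (n + 1) → E),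
      FromElliptic X E a b ∧ ∀ (G : BiPoly N n) (D D' : ℕ), BiHom G D D' →
        (aeval (Sum.elim a b) G = 0 ↔ ∀ z, eval (Sum.elim (u z) (v z)) G = 0) := by
  classical
  have du := huv.diffu
  have dv := huv.diffv
  have hroot : ∀ j, ∃ h : ℂ → ℂ, Differentiable ℂ h ∧ ∀ z, h z ^ m = v z j := by
    intro j
    by_cases hj : ∃ z, v z j ≠ 0
    · exact exists_root (dv j) hj hm (fun z => ord_dvd hX du dv huv.mem z j hj)
    · push Not at hj
      exact ⟨fun _ => 0, differentiable_const _, fun z => by rw [zero_pow hm.ne', hj]⟩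
  choose h hh hhm using hroot
  have hVh : ∀ z e, eval (fun j => h j z ^ m) (F e) = 0 := by
    intro z e
    simp only [hhm]
    exact hV _ _ (huv.mem z) e
  obtain ⟨W, hW⟩ : ∃ W : Fin (N + 1) ⊕ Fin (n + 1) → Ent,
      W = Sum.elim (fun i => ⟨fun z => u z i, du i⟩) fun j => ⟨fun z => v z j, dv j⟩ := ⟨_, rfl⟩
  obtain ⟨A, hA⟩ : ∃ A : Fin (N + 1) → MK, A = fun i => Th ⟨fun z => u z i, du i⟩ := ⟨_, rfl⟩
  obtain ⟨B, hB⟩ : ∃ B : Fin (n + 1) → MK, B = fun j => Th ⟨fun z => v z j, dv j⟩ := ⟨_, rfl⟩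
  have hBH : ∀ j, B j = Th ⟨h j, hh j⟩ ^ m := by
    intro j
    rw [hB, ← map_pow]
    show Th _ = Th _
    congr 1
    apply Subtype.ext
    funext z
    exact (hhm j z).symm
  have hevW : ∀ (G : BiPoly N n) (z : ℂ), ((aeval W G : Ent) : ℂ → ℂ) z =
      eval (Sum.elim (u z) (v z)) G := by
    intro G z
    have h1 : ((aeval W G : Ent) : ℂ → ℂ) z =
        ((Pi.evalAlgHom ℂ (fun _ : ℂ => ℂ) z).comp Ent.val) (aeval W G) := rfl
    rw [h1, ← AlgHom.comp_apply, comp_aeval]
    have h8 : (fun s => ((Pi.evalAlgHom ℂ (fun _ : ℂ => ℂ) z).comp Ent.val) (W s)) =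
        Sum.elim (u z) (v z) := by
      funext s
      rw [hW]
      rcases s with s | s <;> rfl
    rw [h8]
    rfl
  have hTW : ∀ G : BiPoly N n, aeval (Sum.elim A B) G = Th (aeval W G) := by
    intro G
    rw [← AlgHom.comp_apply, comp_aeval]
    congr 2
    funext s
    rw [hW, hA, hB]
    rcases s with s | s <;> rfl
  have hvan : ∀ G : BiPoly N n, aeval (Sum.elim A B) G = 0 ↔
      ∀ z, eval (Sum.elim (u z) (v z)) G = 0 := by
    intro G
    rw [hTW]
    constructor
    · intro h0 z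
      rw [← hevW, Th_zero h0]
      rfl
    · intro h0
      have h1 : aeval W G = (0 : Ent) := by
        apply Subtype.ext
        funext z
        rw [hevW, h0]
        rfl
      rw [h1, map_zero]
  have hmem : X.Mem A B := by
    obtain ⟨ha, hb, _⟩ := huv.mem 0
    refine ⟨?_, ?_, ?_⟩
    · intro h0
      apply ha
      funext j
      by_contra hj
      exact Th_ne (du j) ⟨0, hj⟩ (by
        have := congrFun h0 j
        rw [hA] at this
        exact this)
    · intro h0
      apply hb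
      funext j
      by_contra hj
      exact Th_ne (dv j) ⟨0, hj⟩ (by
        have := congrFun h0 j
        rw [hB] at this
        exact this)
    · intro G hG
      exact (hvan G).2 fun z => (huv.mem z).2.2 G hG
  have hvh : (fun z j => h j z ^ m) = v := by
    funext z j
    exact hhm j z
  have hdim := dim_le hh hm hs hF hVh (by rw [hvh]; exact hT) hBH
  obtain ⟨E, hE⟩ : ∃ E : IntermediateField ℂ MK, E = coords ℂ A ⊔ coords ℂ B := ⟨_, rfl⟩
  have htr : Algebra.trdeg ℂ E ≤ 1 := by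
    rw [hE]
    exact hL MK A B hmem hdim
  have hfg : E.FG := by
    rw [hE]
    exact fg_sup (fg_coords A) (fg_coords B)
  have hAE : ∀ i j, A j ≠ 0 → A i / A j ∈ E := fun i j hj => by
    rw [hE]
    exact (le_sup_left : coords ℂ A ≤ coords ℂ A ⊔ coords ℂ B) (mem_coords A i j hj)
  have hBE : ∀ i j, B j ≠ 0 → B i / B j ∈ E := fun i j hj => by
    rw [hE]
    exact (le_sup_right : coords ℂ B ≤ coords ℂ A ⊔ coords ℂ B) (mem_coords B i j hj)
  -- a coordinate which is not meromorphic at infinity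
  have hess : (∃ i j, A j ≠ 0 ∧ ¬ MInf (A i / A j)) ∨ ∃ i j, B j ≠ 0 ∧ ¬ MInf (B i / B j) := by
    obtain ⟨z, z', hnc⟩ := huv.nonconst
    by_cases hu : ∃ t : ℂ, u z' = t • u z
    · right
      have hv : ∃ z w, ∀ c : ℂ, v z ≠ c • v w :=
        ⟨z', z, fun c hc => hnc ⟨hu, c, hc⟩⟩
      rw [hB]
      exact ess dv (fun z => (huv.mem z).2.1) hv
    · left
      have hu' : ∃ z w, ∀ c : ℂ, u z ≠ c • u w := ⟨z', z, fun c hc => hu ⟨c, hc⟩⟩
      rw [hA]
      exact ess du (fun z => (huv.mem z).1) hu'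
  have hf : ∃ f : E, ¬ MInf (f : MK) := by
    rcases hess with ⟨i, j, hj, h1⟩ | ⟨i, j, hj, h1⟩
    · exact ⟨⟨_, hAE i j hj⟩, h1⟩
    · exact ⟨⟨_, hBE i j hj⟩, h1⟩
  obtain ⟨f, hf⟩ := hf
  obtain ⟨hff, E', hE'1, hE'2, hff', φ, hell⟩ := elliptic_of E hfg htr hf
  obtain ⟨k, hk⟩ := Function.ne_iff.1 hmem.1
  obtain ⟨l, hl⟩ := Function.ne_iff.1 hmem.2.1
  have hk : A k ≠ 0 := hk
  have hl : B l ≠ 0 := hl
  obtain ⟨aE, haE⟩ : ∃ aE : Fin (N + 1) → E, aE = fun i => ⟨A i / A k, hAE i k hk⟩ := ⟨_, rfl⟩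
  obtain ⟨bE, hbE⟩ : ∃ bE : Fin (n + 1) → E, bE = fun j => ⟨B j / B l, hBE j l hl⟩ := ⟨_, rfl⟩
  have haE' : ∀ i, (aE i : MK) = (A k)⁻¹ * A i := fun i => by
    rw [haE]
    show A i / A k = _
    rw [div_eq_inv_mul]
  have hbE' : ∀ j, (bE j : MK) = (B l)⁻¹ * B j := fun j => by
    rw [hbE]
    show B j / B l = _
    rw [div_eq_inv_mul]
  have key : ∀ (G : BiPoly N n) (D D' : ℕ), BiHom G D D' →
      (aeval (Sum.elim (fun i => φ (aE i)) fun j => φ (bE j)) G = 0 ↔
        aeval (Sum.elim A B) G = 0) := by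
    intro G D D' hG
    have h1 : aeval (Sum.elim (fun i => φ (aE i)) fun j => φ (bE j)) G =
        φ (aeval (Sum.elim aE bE) G) := by
      rw [← AlgHom.comp_apply, comp_aeval]
      congr 2
      funext s
      rcases s with s | s <;> rfl
    have h2 : E.val (aeval (Sum.elim aE bE) G) =
        ((A k)⁻¹ ^ D * (B l)⁻¹ ^ D') * aeval (Sum.elim A B) G := by
      rw [← scale hG, ← AlgHom.comp_apply, comp_aeval]
      congr 2
      funext s
      rcases s with s | s
      · exact haE' s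
      · exact hbE' s
    rw [h1, map_eq_zero, ← map_eq_zero E.val, h2, mul_eq_zero, or_iff_right]
    exact mul_ne_zero (pow_ne_zero _ (inv_ne_zero hk)) (pow_ne_zero _ (inv_ne_zero hl))
  have hak : aE k = 1 := by
    apply Subtype.ext
    rw [haE' k, inv_mul_cancel₀ hk]
    rfl
  have hbl : bE l = 1 := by
    apply Subtype.ext
    rw [hbE' l, inv_mul_cancel₀ hl]
    rfl
  refine ⟨E', hE'1, hE'2, fun i => φ (aE i), fun j => φ (bE j), ⟨hff', hell, ⟨?_, ?_, ?_⟩, ?_⟩,
    fun G D D' hG => (key G D D' hG).trans (hvan G)⟩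
  · intro h0
    have h1 := congrFun h0 k
    beta_reduce at h1
    rw [hak, map_one] at h1
    exact one_ne_zero h1
  · intro h0
    have h1 := congrFun h0 l
    beta_reduce at h1
    rw [hbl, map_one] at h1
    exact one_ne_zero h1
  · intro G hG
    obtain ⟨D, D', hD⟩ := X.hom G hG
    exact (key G D D' hD).2 (hmem.2.2 G hG)
  · rcases hess with ⟨i, j, hj, h1⟩ | ⟨i, j, hj, h1⟩
    · left
      have hj' : aE j ≠ 0 := by
        intro h0
        have := haE' j
        rw [h0] at this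
        exact mul_ne_zero (inv_ne_zero hk) hj this.symm
      refine ⟨i, j, (map_ne_zero φ).2 hj', fun halg => ?_⟩
      rw [← map_div₀] at halg
      have h2 := (isAlgebraic_algHom_iff φ φ.toRingHom.injective).1 halg
      have h3 := h2.algHom E.val
      refine transc_of h1 ?_
      have h4 : E.val (aE i / aE j) = A i / A j := by
        rw [map_div₀]
        show (aE i : MK) / (aE j : MK) = _
        rw [haE', haE', mul_div_mul_left _ _ (inv_ne_zero hk)]
      rwa [h4] at h3
    · right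
      have hj' : bE j ≠ 0 := by
        intro h0
        have := hbE' j
        rw [h0] at this
        exact mul_ne_zero (inv_ne_zero hl) hj this.symm
      refine ⟨i, j, (map_ne_zero φ).2 hj', fun halg => ?_⟩
      rw [← map_div₀] at halg
      have h2 := (isAlgebraic_algHom_iff φ φ.toRingHom.injective).1 halg
      have h3 := h2.algHom E.val
      refine transc_of h1 ?_
      have h4 : E.val (bE i / bE j) = B i / B j := by
        rw [map_div₀]
        show (bE i : MK) / (bE j : MK) = _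
        rw [hbE', hbE', mul_div_mul_left _ _ (inv_ne_zero hl)]
      rwa [h4] at h3

end Run7.h34.DR
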